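import Pool.Agent.Q258.LT.Prob

/-!
# The group request is optimal in the inverse-weighted lottery when `t ≤ 1`

Let `X_1, ..., X_m` be independent exponential random variables (`P(X_i > s) = e ^ (-s)`), `1 ≤ m ≤ k`,
`0 < t ≤ 1` and `a ∈ {1, ..., k} ^ m`.  Then `P(∑ a_i 1[a_i X_i < t] ≥ m) ≤ 1 - e ^ (-t)`, the success
probability of the group request.  This answers the question affirmatively.

More generally, for real requests `a_1, ..., a_n > 0`, a real target `c > 0` and `n t ≤ c`,
`P(∑ a_i 1[a_i X_i < t] ≥ c) ≤ 1 - e ^ (-n t / c)`, with equality for `a_i = c`.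

The proof.  Let `B_i = 1[a_i X_i < t]`, so `P(B_i = 0) = e ^ (-t / a_i)`.  Replace `B_i` by the maximum of
`K` independent indicators with the failure probability `e ^ (-t / (a_i K))`: the law of `B_i` does not
change, and the sum `∑ a_i B_i` is at most the sum of all `n K` refined variables.  A refined variable has
mean `a_i (1 - e ^ (-t / (a_i K))) ≤ t / K`; enlarge its value so that the mean is `t / K`.  The sharp
inequality of Samuels type for independent two-point variables with EQUAL means (starting library,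
`S_T2G`) gives `P(sum < c) ≥ min ((1 - t / (c K)) ^ (n K), (1 - n t / c) / (1 - n t / c + t / (c K)))`, if
`n t < c`.  Let `K → ∞`; both terms are at least `e ^ (-n t / c)` in the limit.  The case `n t = c` follows
by continuity in `t`.
-/

set_option autoImplicit false

namespace Pool.Agent.Results.MP_9c491c_pr.GroupRequestOptimal

open MeasureTheory ProbabilityTheory

/-- For independent exponential variables `X_i` with mean one on any probability space: (1) for all
integers `k ≥ m ≥ 1`, every `t ∈ (0, 1]` and every `a ∈ {1, ..., k} ^ m`,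
`P(∑ a_i 1[a_i X_i < t] ≥ m) ≤ 1 - e ^ (-t)`; (2) for real `a_1, ..., a_n > 0`, `c > 0`, `t > 0` with
`n t ≤ c`, `P(∑ a_i 1[a_i X_i < t] ≥ c) ≤ 1 - e ^ (-n t / c)`. -/
theorem result {Ω : Type*} [MeasurableSpace Ω] (P : Measure Ω) [IsProbabilityMeasure P] :
    (∀ m k : ℕ, 1 ≤ m → m ≤ k → ∀ t : ℝ, 0 < t → t ≤ 1 →
      ∀ a : Fin m → ℕ, (∀ i, 1 ≤ a i ∧ a i ≤ k) →
      ∀ X : Fin m → Ω → ℝ, (∀ i, Measurable (X i)) → iIndepFun X P →
      (∀ i, ∀ s : ℝ, 0 ≤ s → P.real {ω | s < X i ω} = Real.exp (-s)) →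
      P.real {ω | m ≤ ∑ i, if (a i : ℝ) * X i ω < t then a i else 0} ≤ 1 - Real.exp (-t)) ∧
    (∀ n : ℕ, 1 ≤ n → ∀ c t : ℝ, 0 < c → 0 < t → n * t ≤ c →
      ∀ a : Fin n → ℝ, (∀ i, 0 < a i) →
      ∀ X : Fin n → Ω → ℝ, (∀ i, Measurable (X i)) → iIndepFun X P →
      (∀ i, ∀ s : ℝ, 0 ≤ s → P.real {ω | s < X i ω} = Real.exp (-s)) →
      P.real {ω | c ≤ ∑ i, if a i * X i ω < t then a i else 0} ≤ 1 - Real.exp (-(n * t / c))) := by
  refine ⟨?_, ?_⟩
  · intro m k hm hmk t ht ht1 a ha X hX hind hexp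
    have hm0 : (0 : ℝ) < m := by exact_mod_cast hm
    have h := Pool.Agent.Q258.LT.prob_main P m hm X hX hind hexp (fun i => (a i : ℝ))
      (fun i => by exact_mod_cast (ha i).1) m t hm0 ht (by nlinarith)
    have e : {ω | (m : ℝ) ≤ ∑ i, if (a i : ℝ) * X i ω < t then (a i : ℝ) else 0} =
        {ω | m ≤ ∑ i, if (a i : ℝ) * X i ω < t then a i else 0} := by
      ext ω
      have : (∑ i, if (a i : ℝ) * X i ω < t then (a i : ℝ) else 0) =
          ((∑ i, if (a i : ℝ) * X i ω < t then a i else 0 : ℕ) : ℝ) := by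
        push_cast
        rfl
      change (m : ℝ) ≤ _ ↔ m ≤ _
      rw [this, Nat.cast_le]
    rw [e, mul_div_cancel_left₀ _ hm0.ne'] at h
    exact h
  · intro n hn c t hc ht h a ha X hX hind hexp
    exact Pool.Agent.Q258.LT.prob_main P n hn X hX hind hexp a ha c t hc ht h

end Pool.Agent.Results.MP_9c491c_pr.GroupRequestOptimal
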